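import Pool.Agent.W58.DS.Stm

/-! Project DS: trigonometric polynomials close to an indicator. -/

set_option autoImplicit false

namespace Pool.Agent.W612.DS.Ind

open MeasureTheory Set Filter Topology Polynomial Pool.Agent.W58.DS

instance : Fact ((0 : ℝ) < 1) := ⟨one_pos⟩

lemma e1_cont : Continuous e1 := by
  unfold e1
  fun_prop

lemma e1_norm (t : ℝ) : ‖e1 t‖ = 1 := by
  unfold e1
  have : (2 * Real.pi * t * Complex.I : ℂ) = ((2 * Real.pi * t : ℝ) : ℂ) * Complex.I := by
    push_cast; ring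
  rw [this, Complex.norm_exp_ofReal_mul_I]

lemma eval_cont (P : ℂ[X]) : Continuous (fun z : ℂ => (P.eval z).re) :=
  Complex.continuous_re.comp P.continuous

lemma fourier_e1 (k : ℤ) (t : ℝ) : fourier (T := (1 : ℝ)) k (t : AddCircle (1 : ℝ)) = e1 t ^ k := by
  rw [fourier_coe_apply]
  unfold e1
  rw [← Complex.exp_int_mul]
  congr 1
  push_cast
  ring

/-- real parts of trigonometric polynomials are real parts of polynomials -/
lemma span_re (q : C(AddCircle (1 : ℝ), ℂ))
    (hq : q ∈ Submodule.span ℂ (Set.range (fun k : ℤ => fourier (T := (1 : ℝ)) k))) :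
    ∀ c : ℂ, ∃ B : ℂ[X], ∀ t : ℝ, (c * q (t : AddCircle (1 : ℝ))).re = (B.eval (e1 t)).re := by
  induction hq using Submodule.span_induction with
  | mem q hq =>
    obtain ⟨k, rfl⟩ := hq
    intro c
    rcases le_or_gt 0 k with hk | hk
    · obtain ⟨n, rfl⟩ := Int.eq_ofNat_of_zero_le hk
      refine ⟨C c * X ^ n, fun t => ?_⟩
      rw [fourier_e1]
      simp
    · obtain ⟨n, hn⟩ := Int.eq_ofNat_of_zero_le (show 0 ≤ -k by omega)
      have hk' : k = -(n : ℤ) := by omega
      subst hk'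
      refine ⟨C ((starRingEnd ℂ) c) * X ^ n, fun t => ?_⟩
      rw [fourier_e1]
      have h1 : e1 t ^ (-(n : ℤ)) = (starRingEnd ℂ) (e1 t ^ n) := by
        rw [zpow_neg, zpow_natCast]
        rw [Complex.inv_def]
        rw [Complex.normSq_eq_norm_sq, norm_pow, e1_norm]
        simp
      rw [h1]
      simp only [eval_mul, eval_C, eval_pow, eval_X]
      rw [← Complex.conj_re ((starRingEnd ℂ) c * e1 t ^ n), map_mul, Complex.conj_conj]
  | zero => intro c; exact ⟨0, fun t => by simp⟩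
  | add q r _ _ ihq ihr =>
    intro c
    obtain ⟨B1, h1⟩ := ihq c
    obtain ⟨B2, h2⟩ := ihr c
    refine ⟨B1 + B2, fun t => ?_⟩
    rw [ContinuousMap.add_apply, mul_add, Complex.add_re, h1, h2, eval_add, Complex.add_re]
  | smul a q _ ih =>
    intro c
    obtain ⟨B, h⟩ := ih (c * a)
    refine ⟨B, fun t => ?_⟩
    rw [ContinuousMap.smul_apply, smul_eq_mul, ← mul_assoc, h]

lemma approx (h : C(AddCircle (1 : ℝ), ℝ)) (ε : ℝ) (hε : 0 < ε) :
    ∃ B : ℂ[X], ∀ t : ℝ, |(B.eval (e1 t)).re - h (t : AddCircle (1 : ℝ))| ≤ ε := by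
  set hc : C(AddCircle (1 : ℝ), ℂ) := ⟨fun x => (h x : ℂ), by fun_prop⟩ with hhc
  have hmem : hc ∈ (Submodule.span ℂ (Set.range (fun k : ℤ => fourier (T := (1 : ℝ)) k))).topologicalClosure := by
    have := span_fourier_closure_eq_top (T := (1 : ℝ))
    rw [this]
    trivial
  rw [← SetLike.mem_coe, Submodule.topologicalClosure_coe, Metric.mem_closure_iff] at hmem
  obtain ⟨q, hq, hd⟩ := hmem ε hε
  obtain ⟨B, hB⟩ := span_re q hq 1
  refine ⟨B, fun t => ?_⟩
  rw [← hB t, one_mul]
  have h1 : (q (t : AddCircle (1 : ℝ))).re - h (t : AddCircle (1 : ℝ)) =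
      (q (t : AddCircle (1 : ℝ)) - hc (t : AddCircle (1 : ℝ))).re := by
    simp [hhc]
  rw [h1]
  refine (Complex.abs_re_le_norm _).trans ?_
  rw [dist_comm, dist_eq_norm] at hd
  have h2 := ContinuousMap.norm_coe_le_norm (q - hc) (t : AddCircle (1 : ℝ))
  rw [ContinuousMap.sub_apply] at h2
  exact h2.trans hd.le

/-- mean value -/
lemma mean_pow (k : ℕ) : ∫ t in (0 : ℝ)..1, e1 t ^ k = if k = 0 then 1 else 0 := by
  by_cases hk : k = 0
  · subst hk
    simp
  · rw [if_neg hk]
    have h1 : ∀ t : ℝ, e1 t ^ k = Complex.exp ((2 * Real.pi * k * Complex.I) * (t : ℂ)) := by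
      intro t
      unfold e1
      rw [← Complex.exp_nat_mul]
      congr 1
      ring
    simp only [h1]
    have hc : (2 * Real.pi * k * Complex.I : ℂ) ≠ 0 := by
      have hpi : (Real.pi : ℂ) ≠ 0 := by exact_mod_cast Real.pi_ne_zero
      have hk' : (k : ℂ) ≠ 0 := by exact_mod_cast hk
      exact mul_ne_zero (mul_ne_zero (mul_ne_zero two_ne_zero hpi) hk') Complex.I_ne_zero
    rw [integral_exp_mul_complex hc]
    have h2 : Complex.exp (2 * Real.pi * k * Complex.I * ((1 : ℝ) : ℂ)) = 1 := by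
      rw [Complex.exp_eq_one_iff]
      exact ⟨k, by push_cast; ring⟩
    rw [h2]
    simp

lemma mean_re (B : ℂ[X]) : ∫ t in (0 : ℝ)..1, (B.eval (e1 t)).re = (B.eval 0).re := by
  have h1 : ∫ t in (0 : ℝ)..1, B.eval (e1 t) = B.eval 0 := by
    simp only [eval_eq_sum_range]
    rw [intervalIntegral.integral_finsetSum]
    · apply Finset.sum_congr rfl
      intro i _
      rw [intervalIntegral.integral_const_mul, mean_pow]
      by_cases hi : i = 0
      · simp [hi]
      · simp [hi]
    · intro i _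
      exact (continuous_const.mul (e1_cont.pow i)).intervalIntegrable _ _
  have h2 := ContinuousLinearMap.intervalIntegral_comp_comm (a := (0 : ℝ)) (b := 1) (μ := volume)
    (f := fun t => B.eval (e1 t)) (L := Complex.reCLM) ((B.continuous.comp e1_cont).intervalIntegrable _ _)
  simp only [Complex.reCLM_apply] at h2
  rw [h2, h1]

/-- the trapezoid functions -/
noncomputable def gf (lam : ℝ) : C(AddCircle (1 : ℝ), ℝ) :=
  ⟨fun x => ((Complex.exp (-(Real.pi * lam) * Complex.I) * fourier (T := (1 : ℝ)) 1 x).re -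
    Real.cos (Real.pi * lam)) / 2, by
      have : Continuous (fun x : AddCircle (1 : ℝ) => fourier (T := (1 : ℝ)) 1 x) :=
        (fourier (T := (1 : ℝ)) 1).continuous
      fun_prop⟩

lemma gf_coe (lam t : ℝ) : gf lam (t : AddCircle (1 : ℝ)) =
    Real.sin (Real.pi * t) * Real.sin (Real.pi * (lam - t)) := by
  have h1 : gf lam (t : AddCircle (1 : ℝ)) = ((Complex.exp (-(Real.pi * lam) * Complex.I) *
    fourier (T := (1 : ℝ)) 1 (t : AddCircle (1 : ℝ))).re - Real.cos (Real.pi * lam)) / 2 := rfl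
  rw [h1, fourier_e1, zpow_one]
  unfold e1
  rw [← Complex.exp_add]
  have h2 : (-(Real.pi * lam) * Complex.I + 2 * Real.pi * t * Complex.I : ℂ) =
      ((2 * Real.pi * t - Real.pi * lam : ℝ) : ℂ) * Complex.I := by push_cast; ring
  rw [h2, Complex.exp_ofReal_mul_I_re]
  have h3 : Real.pi * (lam - t) = Real.pi * lam - Real.pi * t := by ring
  have h4 : 2 * Real.pi * t - Real.pi * lam = Real.pi * t - (Real.pi * lam - Real.pi * t) := by ring
  have h5 : Real.pi * lam = Real.pi * t + (Real.pi * lam - Real.pi * t) := by ring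
  rw [h3, h4]
  conv_lhs => rw [h5]
  rw [Real.cos_sub, Real.cos_add]
  simp only [add_sub_cancel_left]
  ring

/-- trapezoid -/
noncomputable def hf (lam : ℝ) (j : ℕ) : C(AddCircle (1 : ℝ), ℝ) :=
  ⟨fun x => max 0 (min 1 (j * gf lam x)), by
    have := (gf lam).continuous
    fun_prop⟩

lemma hf_nonneg (lam : ℝ) (j : ℕ) (x : AddCircle (1 : ℝ)) : 0 ≤ hf lam j x := le_max_left _ _

lemma hf_le (lam : ℝ) (j : ℕ) (x : AddCircle (1 : ℝ)) : hf lam j x ≤ 1 :=
  max_le zero_le_one (min_le_left _ _)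

lemma hf_lim (lam : ℝ) (hl0 : 0 < lam) (hl1 : lam < 1) (t : ℝ) (ht0 : 0 < t) (ht1 : t < 1)
    (htl : t ≠ lam) :
    Tendsto (fun j => hf lam j (t : AddCircle (1 : ℝ))) atTop (𝓝 (if t < lam then 1 else 0)) := by
  have hs : 0 < Real.sin (Real.pi * t) := by
    apply Real.sin_pos_of_pos_of_lt_pi
    · positivity
    · nlinarith [Real.pi_pos]
  rcases lt_or_gt_of_ne htl with h | h
  · rw [if_pos h]
    have hg : 0 < gf lam (t : AddCircle (1 : ℝ)) := by
      rw [gf_coe]
      apply mul_pos hs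
      apply Real.sin_pos_of_pos_of_lt_pi
      · have : 0 < lam - t := by linarith
        positivity
      · nlinarith [Real.pi_pos]
    apply tendsto_const_nhds.congr'
    obtain ⟨n, hn⟩ := exists_nat_gt (1 / gf lam (t : AddCircle (1 : ℝ)))
    filter_upwards [eventually_ge_atTop n] with j hj
    have hj' : (n : ℝ) ≤ j := by exact_mod_cast hj
    have h1 : 1 ≤ (j : ℝ) * gf lam (t : AddCircle (1 : ℝ)) := by
      rw [div_lt_iff₀ hg] at hn
      nlinarith
    change (1 : ℝ) = max 0 (min 1 ((j : ℝ) * gf lam (t : AddCircle (1 : ℝ))))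
    rw [min_eq_left h1, max_eq_right zero_le_one]
  · rw [if_neg (by linarith)]
    have hg : gf lam (t : AddCircle (1 : ℝ)) < 0 := by
      rw [gf_coe]
      apply mul_neg_of_pos_of_neg hs
      have h2 : Real.pi * (lam - t) = -(Real.pi * (t - lam)) := by ring
      rw [h2, Real.sin_neg, neg_lt_zero]
      apply Real.sin_pos_of_pos_of_lt_pi
      · have : 0 < t - lam := by linarith
        positivity
      · nlinarith [Real.pi_pos]
    apply tendsto_const_nhds.congr
    intro j
    have h1 : (j : ℝ) * gf lam (t : AddCircle (1 : ℝ)) ≤ 0 :=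
      mul_nonpos_of_nonneg_of_nonpos (Nat.cast_nonneg _) hg.le
    change (0 : ℝ) = max 0 (min 1 ((j : ℝ) * gf lam (t : AddCircle (1 : ℝ))))
    rw [min_eq_right (by linarith), max_eq_left h1]

lemma hf_cont (lam : ℝ) (j : ℕ) : Continuous (fun t : ℝ => hf lam j (t : AddCircle (1 : ℝ))) :=
  (hf lam j).continuous.comp (AddCircle.continuous_mk' 1)

lemma ae_good (lam : ℝ) : ∀ᵐ t ∂(volume.restrict (Ioc (0 : ℝ) 1)), 0 < t ∧ t < 1 ∧ t ≠ lam := by
  rw [ae_restrict_iff' measurableSet_Ioc]
  have h1 : ∀ᵐ t : ℝ, t ≠ 1 := by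
    simp [ae_iff]
  have h2 : ∀ᵐ t : ℝ, t ≠ lam := by
    simp [ae_iff]
  filter_upwards [h1, h2] with t g1 g2 g3
  exact ⟨g3.1, lt_of_le_of_ne g3.2 g1, g2⟩

lemma int_ind (lam : ℝ) (hl0 : 0 < lam) (hl1 : lam < 1) :
    ∫ t in (0 : ℝ)..1, (if t < lam then (1 : ℝ) else 0) = lam := by
  rw [intervalIntegral.integral_of_le zero_le_one]
  have h1 : (fun t : ℝ => if t < lam then (1 : ℝ) else 0) = (Iio lam).indicator (fun _ => 1) := by
    funext t
    simp [indicator_apply]
  rw [h1, integral_indicator measurableSet_Iio, Measure.restrict_restrict measurableSet_Iio]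
  have h2 : Iio lam ∩ Ioc 0 1 = Ioo 0 lam := by
    ext t
    simp only [mem_inter_iff, mem_Iio, mem_Ioc, mem_Ioo]
    constructor
    · rintro ⟨a, b, _⟩
      exact ⟨b, a⟩
    · rintro ⟨a, b⟩
      exact ⟨b, a, by linarith⟩
  rw [h2]
  simp [hl0.le]

lemma int_lim (lam : ℝ) (hl0 : 0 < lam) (hl1 : lam < 1) :
    Tendsto (fun j => ∫ t in (0 : ℝ)..1, hf lam j (t : AddCircle (1 : ℝ))) atTop (𝓝 lam) := by
  have h1 := intervalIntegral.tendsto_integral_filter_of_dominated_convergence
    (a := (0 : ℝ)) (b := 1) (μ := volume) (l := atTop)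
    (F := fun j (t : ℝ) => hf lam j (t : AddCircle (1 : ℝ)))
    (f := fun t : ℝ => if t < lam then (1 : ℝ) else 0) (fun _ => (1 : ℝ))
    (Eventually.of_forall fun j => (hf_cont lam j).aestronglyMeasurable)
    (Eventually.of_forall fun j => Eventually.of_forall fun t _ => by
      rw [Real.norm_eq_abs, abs_of_nonneg (hf_nonneg _ _ _)]
      exact hf_le _ _ _)
    (intervalIntegrable_const)
    (by
      rw [uIoc_of_le zero_le_one, ← ae_restrict_iff' measurableSet_Ioc]
      filter_upwards [ae_good lam] with t ht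
      exact hf_lim lam hl0 hl1 t ht.1 ht.2.1 ht.2.2)
  rw [int_ind lam hl0 hl1] at h1
  exact h1

theorem main : S_IND := by
  intro lam hl0 hl1
  have hB : ∀ j : ℕ, ∃ B : ℂ[X], ∀ t : ℝ,
      |(B.eval (e1 t)).re - hf lam j (t : AddCircle (1 : ℝ))| ≤ 1 / ((j : ℝ) + 4) :=
    fun j => approx (hf lam j) _ (by positivity)
  choose B hB using hB
  have hm : ∀ j, |((B j).eval 0).re - ∫ t in (0 : ℝ)..1, hf lam j (t : AddCircle (1 : ℝ))| ≤
      1 / ((j : ℝ) + 4) := by
    intro j
    rw [← mean_re, ← intervalIntegral.integral_sub]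
    · have h3 := intervalIntegral.norm_integral_le_of_norm_le_const (a := (0 : ℝ)) (b := 1)
        (C := 1 / ((j : ℝ) + 4)) (f := fun t => ((B j).eval (e1 t)).re -
          hf lam j (t : AddCircle (1 : ℝ))) (fun t _ => hB j t)
      simp only [sub_zero, abs_one, mul_one] at h3
      exact h3
    · exact ((eval_cont _).comp e1_cont).intervalIntegrable _ _
    · exact (hf_cont lam j).intervalIntegrable _ _
  have hre : ∀ j t, ((B j - C ((B j).eval 0) + C (lam : ℂ)).eval (e1 t)).re =
      ((B j).eval (e1 t)).re - ((B j).eval 0).re + lam := by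
    intro j t
    simp
  have hI0 : ∀ j, 0 ≤ ∫ t in (0 : ℝ)..1, hf lam j (t : AddCircle (1 : ℝ)) := fun j =>
    intervalIntegral.integral_nonneg zero_le_one (fun t _ => hf_nonneg _ _ _)
  have hI1 : ∀ j, ∫ t in (0 : ℝ)..1, hf lam j (t : AddCircle (1 : ℝ)) ≤ 1 := by
    intro j
    have h3 := intervalIntegral.integral_mono_on (a := (0 : ℝ)) (b := 1) (μ := volume)
      (f := fun t : ℝ => hf lam j (t : AddCircle (1 : ℝ))) (g := fun _ => (1 : ℝ)) zero_le_one
      ((hf_cont lam j).intervalIntegrable 0 1) (continuous_const.intervalIntegrable 0 1)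
      (fun t _ => hf_le lam j _)
    simpa using h3
  refine ⟨fun j => B j - C ((B j).eval 0) + C (lam : ℂ), ?_, ?_, ?_⟩
  · intro j
    simp
  · intro j t
    rw [hre]
    have h1 := abs_le.mp (hB j t)
    have h2 := abs_le.mp (hm j)
    have h3 : 1 / ((j : ℝ) + 4) ≤ 1 / 4 := by
      apply one_div_le_one_div_of_le (by norm_num)
      have : (0 : ℝ) ≤ j := Nat.cast_nonneg _
      linarith
    have h4 := hf_nonneg lam j (t : AddCircle (1 : ℝ))
    have h5 := hf_le lam j (t : AddCircle (1 : ℝ))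
    have h6 := hI0 j
    have h7 := hI1 j
    rw [abs_le]
    constructor <;> linarith [h1.1, h1.2, h2.1, h2.2]
  · filter_upwards [ae_good lam] with t ht
    have hl := hf_lim lam hl0 hl1 t ht.1 ht.2.1 ht.2.2
    have hz : Tendsto (fun j : ℕ => 1 / ((j : ℝ) + 4)) atTop (𝓝 0) := by
      have := tendsto_const_nhds (x := (1 : ℝ)) |>.div_atTop
        (tendsto_atTop_add_const_right atTop (4 : ℝ) tendsto_natCast_atTop_atTop)
      exact this
    have e1' : Tendsto (fun j => ((B j).eval (e1 t)).re - hf lam j (t : AddCircle (1 : ℝ)))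
        atTop (𝓝 0) := squeeze_zero_norm (fun j => hB j t) hz
    have e2' : Tendsto (fun j => ((B j).eval 0).re -
        ∫ t in (0 : ℝ)..1, hf lam j (t : AddCircle (1 : ℝ))) atTop (𝓝 0) :=
      squeeze_zero_norm (fun j => hm j) hz
    have e3' := int_lim lam hl0 hl1
    have h8 := ((e1'.add hl).sub (e2'.add e3')).add (tendsto_const_nhds (x := lam))
    simp only [sub_add_cancel, zero_add] at h8
    simp only [hre]
    exact h8

end Pool.Agent.W612.DS.Ind
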