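import Pool.Agent.W58.DS.Stm

/-! Project DS: limit of the functional after the step. -/

set_option autoImplicit false

namespace Pool.Agent.W612.DS.Lim

open MeasureTheory Set Filter Topology Polynomial Pool.Agent.W58.DS

lemma e1_cont : Continuous e1 := by
  unfold e1
  fun_prop

lemma e1_norm (t : ℝ) : ‖e1 t‖ = 1 := by
  unfold e1
  have : (2 * Real.pi * t * Complex.I : ℂ) = ((2 * Real.pi * t : ℝ) : ℂ) * Complex.I := by
    push_cast; ring
  rw [this, Complex.norm_exp_ofReal_mul_I]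

lemma e1_pow (t : ℝ) (n : ℕ) : e1 t ^ n = e1 (n * t) := by
  unfold e1
  rw [← Complex.exp_nat_mul]
  congr 1
  push_cast
  ring

lemma e1_add_one (t : ℝ) : e1 (t + 1) = e1 t := by
  unfold e1
  have : (2 * Real.pi * ((t + 1 : ℝ) : ℂ) * Complex.I : ℂ) =
      2 * Real.pi * t * Complex.I + 2 * Real.pi * Complex.I := by
    push_cast; ring
  rw [this, Complex.exp_add, Complex.exp_two_pi_mul_I, mul_one]

lemma eval_cont (P : ℂ[X]) : Continuous (fun z : ℂ => (P.eval z).re) :=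
  Complex.continuous_re.comp P.continuous

section

variable {ι : Type} [Fintype ι] (P Q : ℂ[X]) (W : ι → ℂ[X]) (A K : ℂ[X]) (M : ℕ)
  (x y p c : ℝ)

/-- the part of `U2` without the last component -/
noncomputable def SS (z w : ℂ) : ℝ :=
  ((1 - (A.eval z).re) * x + (A.eval z).re * (P.eval w).re) ^ 2 +
    ∑ i, ((A.eval z).re * ((W i).eval w).re) ^ 2

lemma SS_nonneg (z w : ℂ) : 0 ≤ SS P W A x z w := by
  unfold SS
  positivity

lemma SS_cont : Continuous (fun q : ℂ × ℂ => SS P W A x q.1 q.2) := by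
  unfold SS
  have hA : Continuous (fun q : ℂ × ℂ => (A.eval q.1).re) := (eval_cont A).comp continuous_fst
  have hP : Continuous (fun q : ℂ × ℂ => (P.eval q.2).re) := (eval_cont P).comp continuous_snd
  have hW : ∀ i, Continuous (fun q : ℂ × ℂ => ((W i).eval q.2).re) :=
    fun i => (eval_cont (W i)).comp continuous_snd
  refine Continuous.add ?_ ?_
  · exact (((continuous_const.sub hA).mul continuous_const).add (hA.mul hP)).pow 2
  · exact continuous_finsetSum _ (fun i _ => (hA.mul (hW i)).pow 2)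

lemma SS_bdd : ∃ R : ℝ, 0 < R ∧ ∀ t s : ℝ, SS P W A x (e1 t) (e1 s) ≤ R := by
  have hc : IsCompact (Metric.sphere (0 : ℂ) 1 ×ˢ Metric.sphere (0 : ℂ) 1) :=
    (isCompact_sphere _ _).prod (isCompact_sphere _ _)
  obtain ⟨R, hR⟩ := hc.exists_bound_of_continuousOn (SS_cont P W A x).continuousOn
  refine ⟨max R 1, by positivity, fun t s => ?_⟩
  have h1 : (e1 t, e1 s) ∈ Metric.sphere (0 : ℂ) 1 ×ˢ Metric.sphere (0 : ℂ) 1 := by
    constructor <;> simp [e1_norm]
  have h2 := hR _ h1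
  exact ((le_abs_self _).trans h2).trans (le_max_left _ _)

lemma GG_eq (t s : ℝ) : GG p c P Q W x y (A.eval (e1 t)).re s =
    |(1 - (A.eval (e1 t)).re) * y + (A.eval (e1 t)).re * (Q.eval (e1 s)).re| ^ p -
      c ^ p * SS P W A x (e1 t) (e1 s) ^ (p / 2) := rfl

lemma GG_cont (hp : 0 < p) :
    Continuous (fun q : ℝ × ℝ => GG p c P Q W x y (A.eval (e1 q.1)).re q.2) := by
  simp only [GG_eq]
  have hA : Continuous (fun q : ℝ × ℝ => (A.eval (e1 q.1)).re) :=
    (eval_cont A).comp (e1_cont.comp continuous_fst)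
  have hQ : Continuous (fun q : ℝ × ℝ => (Q.eval (e1 q.2)).re) :=
    (eval_cont Q).comp (e1_cont.comp continuous_snd)
  have hS : Continuous (fun q : ℝ × ℝ => SS P W A x (e1 q.1) (e1 q.2)) :=
    (SS_cont P W A x).comp ((e1_cont.comp continuous_fst).prodMk (e1_cont.comp continuous_snd))
  refine Continuous.sub ?_ ?_
  · exact ((((continuous_const.sub hA).mul continuous_const).add (hA.mul hQ)).abs).rpow_const
      (fun _ => Or.inr hp.le)
  · exact continuous_const.mul (hS.rpow_const (fun _ => Or.inr (by positivity)))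

lemma nP_re (h2 : S_VAL) (hP0 : (P.eval 0).im = 0)
    (hK : ∀ z : ℂ, ‖z‖ = 1 → K.eval z = z ^ M * (((A.eval z).re : ℝ) : ℂ)) (n : ℕ) (hn : 1 ≤ n)
    (t : ℝ) : ((nP A K M n x P).eval (e1 t)).re =
      (1 - (A.eval (e1 t)).re) * x + (A.eval (e1 t)).re *
        (P.eval (e1 (((M + 2 * n - 1 : ℕ) : ℝ) * t))).re := by
  obtain ⟨_, h3⟩ := h2 A K M n P hn hK
  have h4 := h3 (e1 t) (e1_norm t)
  rw [e1_pow] at h4
  unfold nP
  rw [eval_add, eval_add, eval_mul, eval_C, eval_C, h4]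
  simp only [Complex.add_re, Complex.mul_re, Complex.sub_re, Complex.sub_im, Complex.ofReal_re,
    Complex.ofReal_im, hP0]
  ring

lemma md_re (h2 : S_VAL) (hP0 : P.eval 0 = 0)
    (hK : ∀ z : ℂ, ‖z‖ = 1 → K.eval z = z ^ M * (((A.eval z).re : ℝ) : ℂ)) (n : ℕ) (hn : 1 ≤ n)
    (t : ℝ) : ((md K M n P).eval (e1 t)).re = (A.eval (e1 t)).re *
        (P.eval (e1 (((M + 2 * n - 1 : ℕ) : ℝ) * t))).re := by
  obtain ⟨_, h3⟩ := h2 A K M n P hn hK
  have h4 := h3 (e1 t) (e1_norm t)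
  rw [e1_pow, hP0] at h4
  rw [h4]
  simp only [Complex.mul_re, Complex.sub_re, Complex.sub_im, Complex.ofReal_re,
    Complex.ofReal_im, Complex.zero_re, Complex.zero_im]
  ring

lemma U2_eq (h2 : S_VAL) (hP0 : (P.eval 0).im = 0) (hW0 : ∀ i, (W i).eval 0 = 0)
    (hK : ∀ z : ℂ, ‖z‖ = 1 → K.eval z = z ^ M * (((A.eval z).re : ℝ) : ℂ)) (n : ℕ) (hn : 1 ≤ n)
    (δ t : ℝ) : U2 (nP A K M n x P) (nW K M n δ W) (e1 t) =
      SS P W A x (e1 t) (e1 (((M + 2 * n - 1 : ℕ) : ℝ) * t)) + (δ * (e1 t ^ n).re) ^ 2 := by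
  unfold U2 SS
  rw [nP_re P A K M x h2 hP0 hK n hn t, Fintype.sum_option]
  have h1 : ((nW K M n δ W none).eval (e1 t)).re = δ * (e1 t ^ n).re := by
    simp [nW]
  have h3 : ∀ i, ((nW K M n δ W (some i)).eval (e1 t)).re = (A.eval (e1 t)).re *
        ((W i).eval (e1 (((M + 2 * n - 1 : ℕ) : ℝ) * t))).re := by
    intro i
    exact md_re (W i) A K M h2 (hW0 i) hK n hn t
  rw [h1]
  simp only [h3]
  ring

end

theorem main (h1 : S_EQUI) (h2 : S_VAL) : S_LIM := by
  intro ι _ P Q W A K M x y p c C0 hp hc hC0 hP0 hQ0 hW0 hK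
  have hp0 : 0 < p := by linarith
  have hFc0 := GG_cont P Q W A x y p c hp0
  have hF1 : ∀ t s, GG p c P Q W x y (A.eval (e1 (t + 1))).re s =
      GG p c P Q W x y (A.eval (e1 t)).re s := fun t s => by rw [e1_add_one]
  have hF2 : ∀ t s, GG p c P Q W x y (A.eval (e1 t)).re (s + 1) =
      GG p c P Q W x y (A.eval (e1 t)).re s := fun t s => by rw [GG_eq, GG_eq, e1_add_one]
  obtain ⟨F, hF⟩ : ∃ F : ℝ → ℝ → ℝ, F = fun t s => GG p c P Q W x y (A.eval (e1 t)).re s :=
    ⟨_, rfl⟩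
  have hFc : Continuous (fun q : ℝ × ℝ => F q.1 q.2) := by rw [hF]; exact hFc0
  have hE := h1 F hFc (fun t s => by rw [hF]; exact hF1 t s) (fun t s => by rw [hF]; exact hF2 t s)
  have hN : Tendsto (fun n : ℕ => M + 2 * n - 1) atTop atTop := by
    apply tendsto_atTop_atTop.mpr
    intro b
    exact ⟨b + 1, fun n hn => by omega⟩
  have hE2 := hE.comp hN
  obtain ⟨R, hR0, hR⟩ := SS_bdd P W A x
  -- the difference
  have hdiff : ∀ ε : ℝ, 0 < ε → ∀ᶠ n : ℕ in atTop, 1 ≤ n ∧ ∀ t : ℝ,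
      |(|((nP A K M n y Q).eval (e1 t)).re| ^ p - c ^ p *
        U2 (nP A K M n x P) (nW K M n (Real.sqrt (C0 / n)) W) (e1 t) ^ (p / 2)) -
        F t (((M + 2 * n - 1 : ℕ) : ℝ) * t)| ≤ ε := by
    intro ε hε
    have hcp : 0 ≤ c ^ p := Real.rpow_nonneg hc p
    have huc : UniformContinuousOn (fun r : ℝ => r ^ (p / 2)) (Icc 0 (R + C0)) :=
      isCompact_Icc.uniformContinuousOn_of_continuous
        ((continuous_id.rpow_const (fun _ => Or.inr (by positivity))).continuousOn)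
    rw [Metric.uniformContinuousOn_iff] at huc
    obtain ⟨δ, hδ, hδ2⟩ := huc (ε / (c ^ p + 1)) (by positivity)
    have hlim : Tendsto (fun n : ℕ => C0 / (n : ℝ)) atTop (𝓝 0) :=
      tendsto_const_div_atTop_nhds_zero_nat C0
    filter_upwards [eventually_ge_atTop 1, hlim.eventually (gt_mem_nhds hδ)] with n hn hnδ
    refine ⟨hn, fun t => ?_⟩
    have hn' : (1 : ℝ) ≤ n := by exact_mod_cast hn
    rw [nP_re Q A K M y h2 hQ0 hK n hn t, U2_eq P W A K M x h2 hP0 hW0 hK n hn]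
    simp only [hF, GG_eq]
    set S := SS P W A x (e1 t) (e1 (((M + 2 * n - 1 : ℕ) : ℝ) * t)) with hS
    set e := (Real.sqrt (C0 / n) * (e1 t ^ n).re) ^ 2 with he
    have hS0 : 0 ≤ S := SS_nonneg P W A x _ _
    have hSR : S ≤ R := hR _ _
    have he0 : 0 ≤ e := sq_nonneg _
    have hre : (e1 t ^ n).re ^ 2 ≤ 1 := by
      have h3 : |(e1 t ^ n).re| ≤ 1 := by
        refine (Complex.abs_re_le_norm _).trans ?_
        rw [norm_pow, e1_norm, one_pow]
      rw [sq_le_one_iff_abs_le_one]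
      exact h3
    have heq : e = (C0 / n) * (e1 t ^ n).re ^ 2 := by
      rw [he, mul_pow, Real.sq_sqrt (by positivity)]
    have hele : e ≤ C0 / n := by
      rw [heq]
      have : 0 ≤ C0 / n := by positivity
      nlinarith
    have heC : e ≤ C0 := hele.trans (div_le_self hC0.le hn')
    have hkey := hδ2 (S + e) ⟨by positivity, by linarith⟩ S ⟨hS0, by linarith⟩ (by
      rw [Real.dist_eq, add_sub_cancel_left, abs_of_nonneg he0]
      linarith)
    rw [Real.dist_eq] at hkey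
    have e1' : (|(1 - (A.eval (e1 t)).re) * y + (A.eval (e1 t)).re *
        (Q.eval (e1 (((M + 2 * n - 1 : ℕ) : ℝ) * t))).re| ^ p - c ^ p * (S + e) ^ (p / 2)) -
        (|(1 - (A.eval (e1 t)).re) * y + (A.eval (e1 t)).re *
        (Q.eval (e1 (((M + 2 * n - 1 : ℕ) : ℝ) * t))).re| ^ p - c ^ p * S ^ (p / 2)) =
        -(c ^ p * ((S + e) ^ (p / 2) - S ^ (p / 2))) := by ring
    rw [e1', abs_neg, abs_mul, abs_of_nonneg hcp]
    have h5 : c ^ p * |(S + e) ^ (p / 2) - S ^ (p / 2)| ≤ c ^ p * (ε / (c ^ p + 1)) :=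
      mul_le_mul_of_nonneg_left hkey.le hcp
    refine h5.trans ?_
    rw [mul_div_assoc', div_le_iff₀ (by positivity)]
    nlinarith
  -- integrals
  have hz : Tendsto (fun n : ℕ => JJ p c (nP A K M n x P) (nP A K M n y Q)
      (nW K M n (Real.sqrt (C0 / n)) W) -
        ∫ t in (0 : ℝ)..1, F t (((M + 2 * n - 1 : ℕ) : ℝ) * t)) atTop (𝓝 0) := by
    rw [Metric.tendsto_nhds]
    intro ε hε
    filter_upwards [hdiff (ε / 2) (by positivity)] with n hn
    obtain ⟨hn1, hn2⟩ := hn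
    rw [dist_zero_right]
    unfold JJ
    rw [← intervalIntegral.integral_sub]
    · have h3 := intervalIntegral.norm_integral_le_of_norm_le_const (a := (0 : ℝ)) (b := 1)
        (C := ε / 2) (f := fun t => (|((nP A K M n y Q).eval (e1 t)).re| ^ p - c ^ p *
        U2 (nP A K M n x P) (nW K M n (Real.sqrt (C0 / n)) W) (e1 t) ^ (p / 2)) -
        F t (((M + 2 * n - 1 : ℕ) : ℝ) * t)) (fun t _ => hn2 t)
      simp only [sub_zero, abs_one, mul_one] at h3
      linarith
    · apply Continuous.intervalIntegrable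
      have hQc : Continuous (fun t => ((nP A K M n y Q).eval (e1 t)).re) :=
        (eval_cont _).comp e1_cont
      have hUc : Continuous (fun t => U2 (nP A K M n x P)
          (nW K M n (Real.sqrt (C0 / n)) W) (e1 t)) := by
        unfold U2
        refine Continuous.add (((eval_cont _).comp e1_cont).pow 2) ?_
        exact continuous_finsetSum _ (fun i _ => ((eval_cont _).comp e1_cont).pow 2)
      exact (hQc.abs.rpow_const (fun _ => Or.inr hp0.le)).sub
        (continuous_const.mul (hUc.rpow_const (fun _ => Or.inr (by positivity))))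
    · apply Continuous.intervalIntegrable
      exact hFc.comp (f := fun t : ℝ => (t, ((M + 2 * n - 1 : ℕ) : ℝ) * t)) (by fun_prop)
  have hfin := hz.add hE2
  simp only [Function.comp_def, sub_add_cancel, zero_add] at hfin
  rw [hF] at hfin
  exact hfin

end Pool.Agent.W612.DS.Lim
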